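import Mathlib
import Pool.Agent.Lib.MP_32dfd1_ag.Cyc.Theory
import Pool.Agent.Lib.MP_32dfd1_ag.Cyc.SG
import Pool.Agent.Lib.MP_32dfd1_ag.Pur.Short

set_option autoImplicit false

/-!
# Cycles over `ℚ` on one explicit family of varieties (definitions)

`T₀ : CycleData V₀` consists of the Chow rings `CH^*(X) ⊗ ℚ` (cycles and rational equivalence over
`ℚ`) and the cohomology rings `H^*(X(ℂ), ℚ)` of the smooth projective geometrically connected
varieties over `ℚ`, and `T : CycleData V` of the same rings for the smooth projective connected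
varieties over `ℚ̄`.
-/

namespace Pool.Agent.Lib.MP_32dfd1_ag.Cyc

open CategoryTheory MonoidalCategory CartesianMonoidalCategory MonObj

universe u v w

/-- a rational number times a class -/
abbrev RingData.rat {V : Type u} [Category.{v} V] (R : RingData.{u, v, w} V) {X : V} (q : ℚ)
    (x : R.R X) : R.R X := q • x

/-- `H^j(X) = 0` -/
abbrev CycleData.Vanishes {V : Type u} [Category.{v} V] (T : CycleData.{u, v, w} V) (X : V)
    (j : ℤ) : Prop := T.H.gr X j = ⊥

/-- the product of the morphism `f : X ⟶ A` with the integer `n` -/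
def AbVar.times {V : Type u} [Category.{v} V] [CartesianMonoidalCategory V] [BraidedCategory V]
    {T : CycleData.{u, v, w} V} (A : AbVar T) {X : V} (f : X ⟶ A.A) (n : ℤ) : X ⟶ A.A := f ^ n

/-- multiplication by `n` on the abelian variety `A` -/
def AbVar.mult {V : Type u} [Category.{v} V] [CartesianMonoidalCategory V] [BraidedCategory V]
    {T : CycleData.{u, v, w} V} (A : AbVar T) (n : ℤ) : A.A ⟶ A.A := A.times (𝟙 A.A) n

/-- the signs of an even sign change -/
def SG.sign {N : ℕ} (g : SG N) (i : Fin N) : ℤ := ((g.1 i : ℤˣ) : ℤ)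

end Pool.Agent.Lib.MP_32dfd1_ag.Cyc

namespace Pool.Agent.Lib.MP_32dfd1_ag.Bel

open CategoryTheory MonoidalCategory CartesianMonoidalCategory MonObj
  Pool.Agent.Lib.MP_32dfd1_ag.Cyc

universe u v w u' v'

/-- Base change from `ℚ` to `ℚ̄`: `F X` is `X × Spec ℚ̄` and `bc X` is the inverse image
`CH^*(X) ⊗ ℚ ⟶ CH^*(F X) ⊗ ℚ`, which is injective. -/
structure BaseChange {V₀ : Type u'} [Category.{v'} V₀] {V : Type u} [Category.{v} V]
    (T₀ : CycleData.{u', v', w} V₀) (T : CycleData.{u, v, w} V) where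
  F : V₀ ⥤ V
  bc : (X : V₀) → T₀.CH.R X → T.CH.R (F.obj X)
  bc_injective : ∀ X, Function.Injective (bc X)
  bc_rat : ∀ (X : V₀) (q : ℚ) (z : T₀.CH.R X), bc X (T₀.CH.rat q z) = T.CH.rat q (bc X z)
  bc_homTrivial : ∀ (X : V₀) (m : ℤ) (z : T₀.CH.R X), T₀.HomTrivial X m z →
    T.HomTrivial (F.obj X) m (bc X z)
  bc_inv : ∀ {X Y : V₀} (f : X ⟶ Y) (z : T₀.CH.R Y),
    bc X (T₀.CH.inv f z) = T.CH.inv (F.map f) (bc Y z)
  H_bot : ∀ (X : V₀) (j : ℤ), T₀.Vanishes X j → T.Vanishes (F.obj X) j

section

variable {V : Type u} [Category.{v} V] [CartesianMonoidalCategory V] [BraidedCategory V]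

/-- `B` is an isogeny factor of `A`: there are homomorphisms `i : B ⟶ A` and `p : A ⟶ B` such that
`p ∘ i` is multiplication by an integer `d ≠ 0`. -/
def IsogenyFactor {T : CycleData.{u, v, w} V} (B A : AbVar T) : Prop :=
  ∃ (i : B.A ⟶ A.A) (p : A.A ⟶ B.A) (d : ℤ), IsMonHom i ∧ IsMonHom p ∧ d ≠ 0 ∧
    i ≫ p = B.mult d

/-- A sequence of abelian varieties `A k` over `ℚ` such that every abelian variety over `ℚ` is
an isogeny factor of some `A k`, and the varieties `V_(k,m) = (A k ^ (2m+1) × B_m) / G_m`.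

Belyi's theorem gives an explicit sequence. Let `D_k` be the smooth compactification of the covering
of `P^1 - {0, 1, ∞}` which belongs to the intersection of all subgroups of index `≤ k` of its
geometric fundamental group, a curve over `ℚ` (there is a rational tangential base point), let
`E_k` be the field generated by all number fields of degree `≤ k` and discriminant of absolute value
`≤ k`, and `A_k` the Weil restriction from `E_k` to `ℚ` of the Jacobian of `D_k`. Every abelian
variety `B` over `ℚ` is a quotient of the Jacobian of a curve over `ℚ`, which has by Belyi a map to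
`P^1` without ramification outside of `0, 1, ∞`, of some degree `d`; for `k ≥ d` this curve is
covered by `D_k` over some number field `E`, and `B` is a quotient of the Jacobian of `D_k` over `E`.
So `B` is a quotient, and by Poincare an isogeny factor, of the Weil restriction from `E` to `ℚ` of
the Jacobian of `D_k`, and of `A_l` for all large `l`.

`G_m` is the group of even sign changes on `A k ^ (2m+1)`, and `B_m` is the smooth intersection of the
`c` quadrics `∑_j λ_j t_j^i x_j^2 = 0`, `0 ≤ i < c`, in `P^(2c-1)`, where the `t_j` are distinct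
rational numbers and `λ_j = ∏_(l ≠ j) (t_j - t_l)^(-1)`, with an action of `G_m` by sign changes of
the coordinates such that every `g ≠ 1` changes `c` signs; this action is free, `(1 : ... : 1)` is a
rational point of `B_m`, and `dim B_m = c - 1 > 2m`. -/
structure Tower {V₀ : Type u'} [Category.{v'} V₀] [CartesianMonoidalCategory V₀]
    [BraidedCategory V₀] (T₀ : CycleData.{u', v', w} V₀)
    {T : CycleData.{u, v, w} V} (Φ : BaseChange T₀ T) where
  A : ℕ → AbVar T₀
  cofinal : ∀ B : AbVar T₀, ∃ k, IsogenyFactor B (A k)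
  /-- `A k ^ (2m+1)` -/
  P : ℕ → ℕ → V₀
  /-- the projections `A k ^ (2m+1) ⟶ A k` -/
  pr : (k m : ℕ) → Fin (2 * m + 1) → (P k m ⟶ (A k).A)
  /-- `A k ^ (2m+1)` is the product of `2m + 1` copies of `A k` -/
  tuple : ∀ (k m : ℕ) (X : V₀) (f : Fin (2 * m + 1) → (X ⟶ (A k).A)),
    ∃! h : X ⟶ P k m, ∀ i, h ≫ pr k m i = f i
  dim_P : ∀ k m : ℕ, T₀.dim (P k m) = (2 * m + 1) * (A k).g
  /-- the action of the even sign changes on `A k ^ (2m+1)` -/
  sgn : (k m : ℕ) → SG (2 * m + 1) → (P k m ⟶ P k m)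
  sgn_pr : ∀ (k m : ℕ) (g : SG (2 * m + 1)) (i : Fin (2 * m + 1)),
    sgn k m g ≫ pr k m i = (A k).times (pr k m i) (SG.sign g i)
  /-- the etale Galois covers `A k ^ (2m+1) × B_m ⟶ V_(k,m)` with group `G_m`, the projections
  `A k ^ (2m+1) × B_m ⟶ A k ^ (2m+1)` and the sections given by the rational point of `B_m` -/
  C : (k m : ℕ) → T₀.GaloisCover (P k m) (SG (2 * m + 1)) (sgn k m)
  /-- for `j < dim B_m` the group `H^j(V_(k,m))` is the sum of the `G_m`-invariants in
  `H^(j - 2i)(A k ^ (2m+1))`, `i ≥ 0`; only the vanishing is recorded here -/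
  coh : ∀ (k m : ℕ) (j : ℤ), j ≤ 2 * m →
    (∀ (i : ℕ) (x : T₀.H.R (P k m)), T₀.H.InDeg x (j - 2 * i) →
      (∀ g : SG (2 * m + 1), T₀.H.inv (sgn k m g) x = x) → T₀.H.IsZero x) →
    T₀.Vanishes (C k m).Y j
  /-- The motive of `V_(k,m)` over `ℚ̄` is a summand of the motive of `A k ^ (2m+1) × B_m`, and
  `B_m` is the image of the power `C^(c-1)` of the curve `C` with the equations `u_j^2 = z - t_j`,
  by the morphism with the coordinates `x_j = ∏_l u_j(P_l)`. -/
  abelianType : ∀ k m : ℕ, T.AbelianType (Φ.F.obj (C k m).Y)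

/-- Weil restriction.  Let `A` be an abelian variety over `ℚ̄` and `z` a homologically trivial
cycle class of codimension `m ≥ 1` on `A`. Both are defined over a number field `E`; let `R` be the
Weil restriction of `A` from `E` to `ℚ`, over `ℚ̄` the product of the conjugates of `A`, `i` the
embedding of the factor `A`, and `y` the sum of the inverse images of the conjugates of `z`, a
Galois invariant class on `R` over `ℚ̄`. -/
def WeilRestriction {V₀ : Type u'} [Category.{v'} V₀] [CartesianMonoidalCategory V₀]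
    [BraidedCategory V₀] {T₀ : CycleData.{u', v', w} V₀} {T : CycleData.{u, v, w} V}
    (Φ : BaseChange T₀ T) : Prop :=
  ∀ (A : AbVar T) (m : ℤ) (z : T.CH.R A.A), 1 ≤ m → T.HomTrivial A.A m z →
    ∃ (R : AbVar T₀) (y : T₀.CH.R R.A) (i : A.A ⟶ Φ.F.obj R.A), T₀.HomTrivial R.A m y ∧
      T.CH.inv i (Φ.bc R.A y) = z ∧
      ∀ n : ℤ, i ≫ Φ.F.map (R.mult n) = A.mult n ≫ i

variable {V₀ : Type u'} [Category.{v'} V₀] [CartesianMonoidalCategory V₀]
    [BraidedCategory V₀] {T₀ : CycleData.{u', v', w} V₀}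
    {T : CycleData.{u, v, w} V} {Φ : BaseChange T₀ T}

/-- For all `k` and all `m ≥ 1` every homologically trivial cycle over `ℚ` on `V_(k,m)` of
codimension `m` or of dimension `m - 1` is torsion. -/
def Tower.SmallCycles (S : Tower T₀ Φ) : Prop :=
  ∀ (k m : ℕ) (c : ℤ) (z : T₀.CH.R (S.C k m).Y), 1 ≤ m →
    (c = m ∨ T₀.dim (S.C k m).Y - c = m - 1) →
    T₀.HomTrivial (S.C k m).Y c z → T₀.CH.IsZero z

/-- Q1 for the varieties `V_(k,m)` and for cycles over `ℚ`: if `H^(2c-1)(V_(k,m)) = 0`, `c ≥ 1`,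
then every homologically trivial cycle of codimension `c` over `ℚ` on `V_(k,m)` is torsion in
`CH^c(V_(k,m))`. -/
def Tower.Q1 (S : Tower T₀ Φ) : Prop :=
  ∀ (k m : ℕ) (c : ℤ) (z : T₀.CH.R (S.C k m).Y), 1 ≤ c →
    T₀.Vanishes (S.C k m).Y (2 * c - 1) → T₀.HomTrivial (S.C k m).Y c z → T₀.CH.IsZero z

/-- Q1 for all varieties of abelian type. -/
def Q1Ab (T : CycleData.{u, v, w} V) : Prop :=
  ∀ (X : V) (m : ℤ) (z : T.CH.R X), T.AbelianType X → 1 ≤ m → T.Vanishes X (2 * m - 1) →
    T.HomTrivial X m z → T.CH.IsZero z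

/-- The Bloch-Beilinson filtration on cycles on varieties of abelian type has only one step: a
correspondence `c` from `X` to `Y` which acts as zero on `H^(2m-1)(X)` acts as zero on the
homologically trivial cycle classes of codimension `m` on `X`. -/
def OneStepAb (T : CycleData.{u, v, w} V) : Prop :=
  ∀ X Y : V, T.AbelianType X → T.AbelianType Y → ∀ (m r : ℤ) (c : T.CH.R (X ⊗ Y)), 1 ≤ m →
    T.CH.InDeg c (T.dim X + r) →
    (∀ x, T.H.InDeg x (2 * m - 1) → T.H.IsZero (T.actCoh c x)) →
    ∀ z, T.HomTrivial X m z → T.CH.IsZero (T.CH.act c z)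

/-- For every abelian variety `A` and all integers `m ≥ 1` and `n`, `[n]^*` is multiplication by
`n ^ (2m - 1)` on homologically trivial cycle classes of codimension `m` on `A`. -/
def Weights (T : CycleData.{u, v, w} V) : Prop :=
  ∀ (A : AbVar T) (m : ℤ) (z : T.CH.R A.A), 1 ≤ m → T.HomTrivial A.A m z → ∀ n : ℤ,
    T.CH.inv (A.mult n) z = T.CH.rat ((n : ℚ) ^ (2 * m - 1).toNat) z

/-- Products of homologically trivial cycles on varieties of abelian type are zero. -/
def ProductsAb (T : CycleData.{u, v, w} V) : Prop :=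
  ∀ (X : V) (a b : ℤ) (z z' : T.CH.R X), T.AbelianType X → T.HomTrivial X a z →
    T.HomTrivial X b z' → T.CH.IsZero (T.CH.mul' z z')

end

end Pool.Agent.Lib.MP_32dfd1_ag.Bel
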