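import Mathlib
import Pool.Agent.Lib.MP_32dfd1_ag.Bel.Defs
import Pool.Agent.Lib.MP_32dfd1_ag.Cyc.One
import Pool.Agent.Lib.MP_32dfd1_ag.Cyc.Sign

set_option autoImplicit false
set_option linter.unusedSectionVars false

/-!
# Cycles over `ℚ` on one explicit family of varieties (proofs)
-/

namespace Pool.Agent.Lib.MP_32dfd1_ag.Bel

open CategoryTheory MonoidalCategory CartesianMonoidalCategory MonObj Polynomial
  Pool.Agent.Lib.MP_32dfd1_ag.Cyc

universe u v w u' v'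

section

variable {V : Type u} [Category.{v} V] [CartesianMonoidalCategory V] [BraidedCategory V]
  {T : CycleData.{u, v, w} V} [T.Textbook]

/-- A Galois cover, as `GaloisCover`. -/
structure Cov (T : CycleData.{u, v, w} V) (X : V) (G : Type) [Group G] [Fintype G]
    (a : G → (X ⟶ X)) where
  W : V
  Y : V
  b : G → (W ⟶ W)
  q : W ⟶ Y
  p : W ⟶ X
  s : X ⟶ W
  b_one : b 1 = 𝟙 W
  b_mul : ∀ g h, b (g * h) = b h ≫ b g
  equivariant : ∀ g, b g ≫ p = p ≫ a g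
  section_id : s ≫ p = 𝟙 X
  dim_eq : T.dim Y = T.dim W
  dim_le : T.dim X ≤ T.dim W
  pull_push : ∀ z, T.CH.pull q (T.CH.push q z) = ∑ g, T.CH.pull (b g) z

/-- transport of a cover -/
def cover {T : CycleData.{u, v, w} V} {X X' : V} {G : Type} [Group G] [Fintype G]
    {a : G → (X ⟶ X)} {a' : G → (X' ⟶ X')}
    (e : X ≅ X') (he : ∀ g, a g ≫ e.hom = e.hom ≫ a' g) (hd : T.dim X' = T.dim X)
    (C : T.GaloisCover X G a) : Cov T X' G a' where
  W := C.W
  Y := C.Y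
  b := C.b
  q := C.q
  p := C.p ≫ e.hom
  s := e.inv ≫ C.s
  b_one := C.b_one
  b_mul := C.b_mul
  equivariant g := by
    rw [← Category.assoc, C.equivariant, Category.assoc, he, Category.assoc]
  section_id := by
    rw [Category.assoc, ← Category.assoc C.s, C.section_id, Category.id_comp, e.inv_hom_id]
  dim_eq := C.dim_eq
  dim_le := by rw [hd]; exact C.dim_le
  pull_push := C.pull_push

/-- The relations for inverse images. -/
def RelPull (A : AbVar T) : Prop :=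
  ∀ m : ℕ, 1 ≤ m → ∀ z, T.HomTrivial (A.pow (2 * m + 1)).A m z →
    ∑ g : SG (2 * m + 1), T.CH.pull (A.sgn (2 * m + 1) g.1) z = 0

/-- The relations for direct images. -/
def RelPush (A : AbVar T) : Prop :=
  ∀ (m : ℕ) (c : ℤ), 1 ≤ m → c + (m - 1) = (2 * m + 1) * A.g →
    ∀ z, T.HomTrivial (A.pow (2 * m + 1)).A c z →
    ∑ g : SG (2 * m + 1), T.CH.push (A.sgn (2 * m + 1) g.1) z = 0

theorem relPull_of (A : AbVar T)
    (C : (m : ℕ) → Cov T (A.pow (2 * m + 1)).A (SG (2 * m + 1)) (fun g => A.sgn (2 * m + 1) g.1))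
    (hQ : ∀ m : ℕ, 1 ≤ m → ∀ z, T.HomTrivial (C m).Y m z → z = 0) : RelPull A := by
  intro m hm z hz
  have hQN := hQ m hm
  generalize C m = D at hQN
  obtain ⟨W, Y, b, q, p, s, hb1, hbm, hbp, hsp, hdim, hdim', hqq⟩ := D
  have h1 : T.CH.push q (T.CH.pull p z) = 0 := by
    refine hQN _ (T.homTrivial_congr (T.homTrivial_push q (T.homTrivial_pull p hz)) ?_)
    rw [hdim]; ring
  have h2 := hqq (T.CH.pull p z)
  rw [h1, map_zero] at h2
  have h3 : ∀ g, T.CH.pull s (T.CH.pull (b g) (T.CH.pull p z)) =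
      T.CH.pull (A.sgn (2 * m + 1) g.1) z := by
    intro g
    rw [← T.CH.pull_comp (b g) p, hbp, T.CH.pull_comp, ← T.CH.pull_comp s p, hsp, T.CH.pull_id]
  rw [← Finset.sum_congr rfl fun g _ => h3 g, ← map_sum, ← h2, map_zero]

theorem relPush_of (A : AbVar T)
    (C : (m : ℕ) → Cov T (A.pow (2 * m + 1)).A (SG (2 * m + 1)) (fun g => A.sgn (2 * m + 1) g.1))
    (hQ : ∀ (m : ℕ) (c : ℤ), 1 ≤ m → T.dim (C m).Y - c = m - 1 →
      ∀ z, T.HomTrivial (C m).Y c z → z = 0) : RelPush A := by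
  intro m c hm hc z hz
  have hQN := hQ m
  generalize C m = D at hQN
  obtain ⟨W, Y, b, q, π, s, hb1, hbm, hbp, hsp, hdim, hdim', hqq⟩ := D
  have hdA : T.dim (A.pow (2 * m + 1)).A = (2 * m + 1) * A.g := by
    rw [(A.pow (2 * m + 1)).dim_eq, A.pow_g]
    push_cast
    rfl
  have h1 : T.CH.push q (T.CH.push s z) = 0 := by
    refine hQN (T.dim W - (m - 1)) hm ?_ _
      (T.homTrivial_congr (T.homTrivial_push q (T.homTrivial_push s hz)) ?_)
    · change T.dim Y - (T.dim W - (m - 1)) = m - 1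
      rw [hdim]
      ring
    · rw [hdim, hdA, ← hc]; ring
  have h2 := hqq (T.CH.push s z)
  rw [h1, map_zero] at h2
  have hinvb : ∀ (g : SG (2 * m + 1)) (z : T.CH.R W),
      T.CH.pull (b g) z = T.CH.push (b g⁻¹) z := by
    intro g z
    have e1 : b g⁻¹ ≫ b g = 𝟙 W := by rw [← hbm, mul_inv_cancel, hb1]
    have e2 : b g ≫ b g⁻¹ = 𝟙 W := by rw [← hbm, inv_mul_cancel, hb1]
    exact (T.CH.push_iso (⟨b g⁻¹, b g, e1, e2⟩ : W ≅ W) z).symm
  have h3 : ∀ g, T.CH.push π (T.CH.pull (b g) (T.CH.push s z)) =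
      T.CH.push (A.sgn (2 * m + 1) (g⁻¹ : SG (2 * m + 1)).1) z := by
    intro g
    rw [hinvb, ← T.CH.push_comp (b g⁻¹) π, hbp, T.CH.push_comp, ← T.CH.push_comp s π, hsp,
      T.CH.push_id]
  have h6 : ∑ g : SG (2 * m + 1), T.CH.push (A.sgn (2 * m + 1) g.1) z =
      ∑ g : SG (2 * m + 1), T.CH.push (A.sgn (2 * m + 1) (g⁻¹ : SG (2 * m + 1)).1) z :=
    Fintype.sum_equiv (Equiv.inv (SG (2 * m + 1))) _ _ fun g => by simp
  rw [h6, ← Finset.sum_congr rfl fun g _ => h3 g, ← map_sum, ← h2, map_zero]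

theorem signRel_pull' (A : AbVar T) (hR : RelPull A) (k : ℕ) {z : T.CH.R A.A}
    (hz : T.HomTrivial A.A (k + 1 : ℕ) z) :
    SignRel (2 * (k + 1) + 1) fun n : ℤ => T.CH.pull ((𝟙 A.A : A.A ⟶ A.A) ^ n) z := by
  intro v
  have h := hR (k + 1) (by omega) _
    (T.homTrivial_pull (∏ i, A.pr (2 * (k + 1) + 1) i) hz)
  have h2 := congrArg (T.CH.pull (A.tup (2 * (k + 1) + 1)
    fun i => (𝟙 A.A : A.A ⟶ A.A) ^ (v i))) h
  rw [map_zero, map_sum] at h2
  rw [← h2]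
  refine Finset.sum_congr rfl fun g _ => ?_
  rw [← T.CH.pull_comp, ← T.CH.pull_comp, Category.assoc, AbVar.tup_sgn]
  have e : (𝟙 A.A : A.A ⟶ A.A) ^ (∑ i, ((g.1 i : ℤˣ) : ℤ) • v i) =
      ∏ i, ((𝟙 A.A : A.A ⟶ A.A) ^ (v i)) ^ ((g.1 i : ℤˣ) : ℤ) := by
    have := map_sum (zmultiplesHom _ (Additive.ofMul (𝟙 A.A : A.A ⟶ A.A)))
      (fun i => ((g.1 i : ℤˣ) : ℤ) • v i) Finset.univ
    simp only [zmultiplesHom_apply] at this
    have h3 := congrArg Additive.toMul this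
    rw [toMul_zsmul, toMul_ofMul, toMul_sum] at h3
    rw [h3]
    refine Finset.prod_congr rfl fun i _ => ?_
    rw [toMul_zsmul, toMul_ofMul, smul_eq_mul, mul_comm, zpow_mul]
  beta_reduce
  rw [e]

theorem signRel_push' (A : AbVar T) (hR : RelPush A) {X : V} {m : ℤ} (p : ℕ)
    (hp : m + p = T.dim X) {z : T.CH.R X} (hz : T.HomTrivial X m z) :
    SignRel (2 * (p + 1) + 1) fun f : Additive (X ⟶ A.A) => T.CH.push f.toMul z := by
  intro v
  have hdA : T.dim (A.pow (2 * (p + 1) + 1)).A = (2 * (p + 1 : ℕ) + 1) * A.g := by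
    rw [(A.pow _).dim_eq, A.pow_g]
    push_cast
    rfl
  have h := hR (p + 1) ((2 * (p + 1 : ℕ) + 1) * A.g - p) (by omega)
    (by push_cast; ring) _ (T.homTrivial_congr
      (T.homTrivial_push (A.tup (2 * (p + 1) + 1) fun i => (v i).toMul) hz) (by rw [hdA]; omega))
  have h2 := congrArg (T.CH.push (∏ i, A.pr (2 * (p + 1) + 1) i)) h
  rw [map_zero, map_sum] at h2
  rw [← h2]
  refine Finset.sum_congr rfl fun g _ => ?_
  rw [← T.CH.push_comp, ← T.CH.push_comp, AbVar.tup_sgn]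
  beta_reduce
  rw [toMul_sum]
  rfl

/-- The relations imply that `[n]^*` is multiplication by `n ^ (2m - 1)`. -/
theorem pull_eq' (A : AbVar T) (hR : RelPull A) (hR' : RelPush A) {m : ℤ} (hm : 1 ≤ m)
    {z : T.CH.R A.A} (hz : T.HomTrivial A.A m z) (n : ℤ) :
    T.CH.pull (A.sc n) z = ((n : ℚ) ^ (2 * m - 1).toNat) • z := by
  obtain ⟨k, rfl⟩ : ∃ k : ℕ, m = (k + 1 : ℕ) := ⟨(m - 1).toNat, by omega⟩
  have ha : (2 * ((k + 1 : ℕ) : ℤ) - 1).toNat = 2 * k + 1 := by omega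
  rw [ha]
  by_cases hg : (A.g : ℤ) < (k + 1 : ℕ)
  · have h1 := T.homTrivial_eq_zero' (by rw [A.dim_eq]; exact hg) hz
    rw [h1]; simp
  obtain ⟨p, hp⟩ : ∃ p : ℕ, (k + 1) + p = A.g := ⟨A.g - (k + 1), by omega⟩
  -- the set of homologically trivial classes
  let S : Set (T.CH.R A.A) := {z | T.HomTrivial A.A (k + 1 : ℕ) z}
  let N : Module.End ℚ (T.CH.R A.A) := (T.CH.pull (A.sc 2)).toLinearMap
  let M : Module.End ℚ (T.CH.R A.A) := T.CH.push (A.sc 2)
  have hNp : ∀ (l : ℕ) (z : T.CH.R A.A), (N ^ l) z = T.CH.pull (A.sc (2 ^ l)) z := by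
    intro l
    induction l with
    | zero => intro z; rw [pow_zero, pow_zero, A.sc_one, T.CH.pull_id]; rfl
    | succ l ih =>
      intro z
      rw [pow_succ, Module.End.mul_apply, ih, pow_succ, A.pull_sc_mul]
      rfl
  have hMp : ∀ (l : ℕ) (z : T.CH.R A.A), (M ^ l) z = T.CH.push (A.sc (2 ^ l)) z := by
    intro l
    induction l with
    | zero => intro z; rw [pow_zero, pow_zero, A.sc_one, T.CH.push_id]; rfl
    | succ l ih =>
      intro z
      rw [pow_succ, Module.End.mul_apply, ih, pow_succ, A.push_sc_mul]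
  have h2 : ∀ z ∈ S, N z = ((2 : ℚ) ^ (2 * k + 1)) • z := by
    refine eigen N M S ?_ ?_ ?_ A.g (2 * k + 1) (2 * p + 1) (by omega) ?_ ?_ ?_
    · rintro z ⟨h1, h2⟩
      exact T.homTrivial_pull _ ⟨h1, h2⟩
    · rintro z ⟨h1, h2⟩ w ⟨h3, h4⟩
      exact ⟨Submodule.sub_mem _ h1 h3, by rw [map_sub, h2, h4, sub_zero]⟩
    · rintro a z ⟨h1, h2⟩
      exact ⟨Submodule.smul_mem _ _ h1, by rw [map_smul, h2, smul_zero]⟩
    · intro z
      have := A.push_pull 2 z (by norm_num)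
      push_cast at this
      exact this
    · intro z hz
      have hrel := signRel_pull' A hR k hz
      obtain ⟨c, hc⟩ := hrel.expand
      refine aeval_qp (2 * k + 1 + 1) N z (fun n : ℤ => T.CH.pull (A.sc n) z) c hc fun l => ?_
      rw [hNp]
      congr 3
      push_cast
      ring
    · intro z hz
      have hrel := signRel_push' A hR' p (by rw [A.dim_eq, ← hp]; push_cast; ring) hz
      have hrel' : SignRel (2 * (p + 1) + 1) fun n : ℤ => T.CH.push (A.sc n) z := by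
        have h := hrel.comp (zmultiplesHom _ (Additive.ofMul (𝟙 A.A : A.A ⟶ A.A)))
        exact h
      obtain ⟨c, hc⟩ := hrel'.expand
      refine aeval_qp (2 * p + 1 + 1) M z (fun n : ℤ => T.CH.push (A.sc n) z) c hc fun l => ?_
      rw [hMp]
      congr 3
      push_cast
      ring
  have hrel := signRel_pull' A hR k hz
  obtain ⟨c, hc⟩ := hrel.expand
  have hNz : ∀ l : ℕ, (N ^ l) z = ((2 : ℚ) ^ ((2 * k + 1) * l)) • z := by
    intro l
    induction l with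
    | zero => simp
    | succ l ih =>
      rw [pow_succ', Module.End.mul_apply, ih, map_smul, h2 z hz, smul_smul, ← pow_add]
      congr 2
  have hev := even_values (2 * k + 2) (2 * k + 1) z (fun n : ℤ => T.CH.pull (A.sc n) z) c hc
    (fun l => by
      rw [← hNz, hNp]
      congr 3
      push_cast
      ring)
  have hnat : ∀ l : ℕ, T.CH.pull (A.sc l) z = ((l : ℚ) ^ (2 * k + 1)) • z := by
    intro l
    have h3 := hev l
    beta_reduce at h3
    rw [mul_comm, A.pull_sc_mul] at h3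
    have h4 : T.CH.pull (A.sc 2) z = ((2 : ℚ) ^ (2 * k + 1)) • z := h2 z hz
    rw [h4, map_smul, mul_pow, mul_smul] at h3
    exact smul_right_injective _ (by positivity : ((2 : ℚ) ^ (2 * k + 1)) ≠ 0) h3
  rcases Int.natAbs_eq n with h | h
  · rw [h]
    exact_mod_cast hnat n.natAbs
  · rw [h]
    have h5 := SignRel.odd (k := 2 * k + 1) hrel (n.natAbs : ℤ)
    beta_reduce at h5
    change T.CH.pull (A.sc (-(n.natAbs : ℤ))) z = - T.CH.pull (A.sc (n.natAbs : ℤ)) z at h5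
    rw [h5, hnat, Int.cast_neg, Int.cast_natCast, Odd.neg_pow ⟨k, rfl⟩, neg_smul]

/-- From an abelian variety to its isogeny factors. -/
theorem weight_factor {B A : AbVar T} (h : IsogenyFactor B A) (m : ℤ)
    (hA : ∀ z, T.HomTrivial A.A m z → ∀ n : ℤ,
      T.CH.pull ((𝟙 A.A : A.A ⟶ A.A) ^ n) z = ((n : ℚ) ^ (2 * m - 1).toNat) • z)
    {z : T.CH.R B.A} (hz : T.HomTrivial B.A m z) (n : ℤ) :
    T.CH.pull ((𝟙 B.A : B.A ⟶ B.A) ^ n) z = ((n : ℚ) ^ (2 * m - 1).toNat) • z := by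
  obtain ⟨i, p, d, -, hp, hd, hip⟩ := h
  change i ≫ p = (𝟙 B.A : B.A ⟶ B.A) ^ d at hip
  have h1 := hA _ (T.homTrivial_pull p hz) n
  have e : ((𝟙 A.A : A.A ⟶ A.A) ^ n) ≫ p = p ≫ ((𝟙 B.A : B.A ⟶ B.A) ^ n) := by
    rw [GrpObj.zpow_comp, Category.id_comp, GrpObj.comp_zpow, Category.comp_id]
  rw [← T.CH.pull_comp, e, T.CH.pull_comp, ← map_smul] at h1
  have h2 := congrArg (T.CH.pull i) h1
  have h5 : ∀ x : T.CH.R B.A, T.CH.pull i (T.CH.pull p x) =
      T.CH.pull ((𝟙 B.A : B.A ⟶ B.A) ^ d) x := fun x => by rw [← T.CH.pull_comp, hip]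
  rw [h5, h5] at h2
  have h3 := congrArg (T.CH.push (B.sc d)) h2
  have h4 : ∀ x : T.CH.R B.A, T.CH.push (B.sc d) (T.CH.pull ((𝟙 B.A : B.A ⟶ B.A) ^ d) x) =
      ((d : ℚ) ^ (2 * B.g)) • x := fun x => B.push_pull d x hd
  rw [h4, h4] at h3
  have hd' : ((d : ℚ) ^ (2 * B.g)) ≠ 0 := pow_ne_zero _ (by exact_mod_cast hd)
  exact smul_right_injective _ hd' h3

end

variable {V : Type u} [Category.{v} V] [CartesianMonoidalCategory V] [BraidedCategory V]
  {V₀ : Type u'} [Category.{v'} V₀] [CartesianMonoidalCategory V₀]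
  [BraidedCategory V₀] {T₀ : CycleData.{u', v', w} V₀} [T₀.Textbook]
  {T : CycleData.{u, v, w} V} [T.Textbook] {Φ : BaseChange T₀ T}

/-- the comparison of the product with the iterated product -/
theorem exists_iso (S : Tower T₀ Φ) (k m : ℕ) :
    ∃ e : S.P k m ≅ ((S.A k).pow (2 * m + 1)).A,
    (∀ i, e.hom ≫ (S.A k).pr (2 * m + 1) i = S.pr k m i) ∧
    ∀ g : SG (2 * m + 1), S.sgn k m g ≫ e.hom = e.hom ≫ (S.A k).sgn (2 * m + 1) g.1 := by
  obtain ⟨u, hu, -⟩ := S.tuple k m _ ((S.A k).pr (2 * m + 1))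
  let w := (S.A k).tup (2 * m + 1) (S.pr k m)
  have hw : ∀ i, w ≫ (S.A k).pr (2 * m + 1) i = S.pr k m i :=
    (S.A k).tup_pr (2 * m + 1) (S.pr k m)
  have h1 : w ≫ u = 𝟙 _ := by
    obtain ⟨h, -, hh⟩ := S.tuple k m _ (S.pr k m)
    rw [hh (w ≫ u) fun i => by rw [Category.assoc, hu, hw], hh (𝟙 _) fun i => Category.id_comp _]
  have h2 : u ≫ w = 𝟙 _ := by
    refine (S.A k).pow_ext (2 * m + 1) _ _ fun i => ?_
    rw [Category.assoc, hw, hu, Category.id_comp]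
  refine ⟨⟨w, u, h1, h2⟩, hw, fun g => ?_⟩
  refine (S.A k).pow_ext (2 * m + 1) _ _ fun i => ?_
  change (S.sgn k m g ≫ w) ≫ _ = (w ≫ _) ≫ _
  rw [Category.assoc, hw, S.sgn_pr, Category.assoc, AbVar.sgn_pr, GrpObj.comp_zpow, hw]
  rfl

theorem pureWeight_of_smallCycles (S : Tower T₀ Φ) (hQ : S.SmallCycles) : T₀.PureWeight := by
  intro B m hm z hz n
  obtain ⟨k, hk⟩ := S.cofinal B
  refine weight_factor hk m (fun z hz n => ?_) hz n
  choose e _ he using exists_iso S k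
  have hd : ∀ m : ℕ, T₀.dim ((S.A k).pow (2 * m + 1)).A = T₀.dim (S.P k m) := fun m => by
    rw [S.dim_P, ((S.A k).pow (2 * m + 1)).dim_eq, (S.A k).pow_g]
    push_cast
    rfl
  refine pull_eq' (S.A k) ?_ ?_ hm hz n
  · exact relPull_of (S.A k) (fun m => cover (e m) (he m) (hd m) (S.C k m))
      fun m hm z hz => hQ k m m z hm (Or.inl rfl) hz
  · exact relPush_of (S.A k) (fun m => cover (e m) (he m) (hd m) (S.C k m))
      fun m c hm hc z hz => hQ k m c z hm (Or.inr hc) hz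

theorem vanish (S : Tower T₀ Φ) (k m : ℕ) (j : ℤ) (hj : Odd j) (hjm : j ≤ 2 * m) :
    T₀.H.gr (S.C k m).Y j = ⊥ := by
  obtain ⟨e, -, he⟩ := exists_iso S k m
  refine S.coh k m j hjm fun i x hx hinv => ?_
  have h1 : T₀.H.pull e.inv x = 0 := by
    refine (S.A k).vanish_hyp (2 * m + 1) j hj (by push_cast; omega) i _
      (T₀.H.pull_mem e.inv hx) fun g => ?_
    have e1 : (S.A k).sgn (2 * m + 1) g.1 ≫ e.inv = e.inv ≫ S.sgn k m g := by
      rw [Iso.comp_inv_eq, Category.assoc, he, Iso.inv_hom_id_assoc]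
    have e2 : T₀.H.pull (S.sgn k m g) x = x := hinv g
    rw [← T₀.H.pull_comp, e1, T₀.H.pull_comp, e2]
  have h2 : T₀.H.pull e.hom (T₀.H.pull e.inv x) = x := by
    rw [← T₀.H.pull_comp, e.hom_inv_id, T₀.H.pull_id]
  rw [← h2, h1, map_zero]

theorem smallCycles_of_q1 (S : Tower T₀ Φ) (hQ : S.Q1) : S.SmallCycles := by
  intro k m c z hm hc hz
  by_cases hc0 : c ≤ 0
  · exact T₀.homTrivial_eq_zero hc0 hz
  refine hQ k m c z (by omega) ?_ hz
  rcases hc with h | h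
  · exact vanish S k m (2 * c - 1) ⟨c - 1, by ring⟩ (by omega)
  · have h1 := vanish S k m (2 * (T₀.dim (S.C k m).Y - c) + 1)
      ⟨T₀.dim (S.C k m).Y - c, by ring⟩ (by omega)
    have h2 := T₀.duality _ _ h1
    rw [show 2 * T₀.dim (S.C k m).Y - (2 * (T₀.dim (S.C k m).Y - c) + 1) = 2 * c - 1 by ring]
      at h2
    exact h2

theorem weights_iff : Weights T ↔ T.PureWeight :=
  ⟨fun h A m hm z hz n => h A m z hm hz n, fun h A m z hm hz n => h A m hm z hz n⟩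

theorem q1Ab_iff : Q1Ab T ↔ T.Q1 :=
  ⟨fun h X hX m hm hH z hz => h X m z hX hm hH hz, fun h X m z hX hm hH hz => h X hX m hm hH z hz⟩

theorem oneStepAb_iff : OneStepAb T ↔ T.OneStep := Iff.rfl

theorem productsAb_of_weights (h : Weights T) : ProductsAb T :=
  fun X a b z z' hX hz hz' =>
    productsVanish_of_oneStep (oneStep_of_pureWeight (weights_iff.1 h)) X hX a b z z' hz hz'

theorem pureWeight_of_weil (hW : WeilRestriction Φ) (h : T₀.PureWeight) : T.PureWeight := by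
  intro A m hm z hz n
  obtain ⟨R, y, i, hy, rfl, hi⟩ := hW A m z hm hz
  have h1 : T₀.CH.pull (R.mult n) y = ((n : ℚ) ^ (2 * m - 1).toNat) • y :=
    h R m hm y hy n
  have h2 := congrArg (fun x => T.CH.pull i (Φ.bc R.A x)) h1
  beta_reduce at h2
  have e1 : Φ.bc R.A (T₀.CH.pull (R.mult n) y) = T.CH.pull (Φ.F.map (R.mult n)) (Φ.bc R.A y) :=
    Φ.bc_inv _ _
  have e2 : Φ.bc R.A (((n : ℚ) ^ (2 * m - 1).toNat) • y) =
      ((n : ℚ) ^ (2 * m - 1).toNat) • Φ.bc R.A y := Φ.bc_rat _ _ _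
  rw [e1, e2, map_smul, ← T.CH.pull_comp, hi, T.CH.pull_comp] at h2
  exact h2

theorem towerQ1_of_q1 (S : Tower T₀ Φ) (h : T.Q1) : S.Q1 := by
  intro k m c z hc hH hz
  have h1 := h _ (S.abelianType k m) c hc (Φ.H_bot _ _ hH) _ (Φ.bc_homTrivial _ _ _ hz)
  have h2 : Φ.bc (S.C k m).Y 0 = 0 := by
    have h3 := Φ.bc_rat (S.C k m).Y 0 0
    change Φ.bc _ ((0 : ℚ) • (0 : T₀.CH.R _)) = (0 : ℚ) • Φ.bc _ 0 at h3
    rwa [zero_smul, zero_smul] at h3
  exact Φ.bc_injective _ (by rw [h1, h2])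

/-- The equivalence. -/
theorem tower_tfae (S : Tower T₀ Φ) (hW : WeilRestriction Φ) :
    [S.SmallCycles, S.Q1, Q1Ab T, OneStepAb T, Weights T].TFAE := by
  tfae_have 3 → 2 := fun h => towerQ1_of_q1 S (q1Ab_iff.1 h)
  tfae_have 2 → 1 := smallCycles_of_q1 S
  tfae_have 1 → 5 := fun h =>
    weights_iff.2 (pureWeight_of_weil hW (pureWeight_of_smallCycles S h))
  tfae_have 5 → 4 := fun h => oneStepAb_iff.2 (oneStep_of_pureWeight (weights_iff.1 h))
  tfae_have 4 → 3 := fun h => q1Ab_iff.2 (q1_of_oneStep (oneStepAb_iff.1 h))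
  tfae_finish

end Pool.Agent.Lib.MP_32dfd1_ag.Bel
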